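import Mathlib
import Pool.Agent.X217.Enl

/-!
# Divisibility of ultrafilters need not extend to all generators of the lower one (MP_2734af_lc)
-/

namespace Pool.Agent.Results.MP_2734af_lc.NotAllDivide

open Filter Set Pool.Agent.X217.Enl
open scoped Cardinal

/-- The ultrapower of the positive integers by `W` is an enlargement: every family of sets of
positive integers with the finite intersection property has a common element in the
intersection of its extensions. -/
def IsEnlargement {I : Type} (W : Ultrafilter I) : Prop :=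
  ∀ 𝒜 : Set (Set ℕ+),
    (∀ T : Finset (Set ℕ+), (T : Set (Set ℕ+)) ⊆ 𝒜 → (⋂₀ (T : Set (Set ℕ+))).Nonempty) →
    (⋂ A ∈ 𝒜, star W A).Nonempty

/-- For every cardinal `κ` there is an ultrapower which is an enlargement, also for all families of
at most `κ` subsets of an arbitrary set, together with ultrafilters `F ∣~ G` and an element
`x` of the monad of `F` that divides no element of the monad of `G`. -/
theorem result : ∀ κ : Cardinal.{0}, ∃ (I : Type) (W : Ultrafilter I),
    IsEnlargement W ∧ Enlarging κ W ∧ ∃ F G : Ultrafilter ℕ+, TDvd F G ∧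
      ∃ x ∈ monad W F, ∀ y ∈ monad W G, ¬ x ∣ y := by
  classical
  intro κ
  let κ' : Cardinal.{0} := max κ #(Set (Set ℕ+))
  let Y : Type := Quotient.out κ'
  have hY : #Y = max κ #(Set (Set ℕ+)) := Cardinal.mk_out κ'
  have hE : Enlarging (max κ #(Set (Set ℕ+))) (WW Y) := hY ▸ WW_enlarging Y
  have hE1 : Enlarging κ (WW Y) := fun X 𝒜 h => hE X 𝒜 (h.trans (le_max_left _ _))
  have hE2 : IsEnlargement (WW Y) := by
    intro 𝒜 h𝒜
    have hc : #𝒜 ≤ #(Set (Set ℕ+)) := (Cardinal.mk_set_le 𝒜).trans
      (Cardinal.mk_le_of_injective (f := fun s : Set ℕ+ => ({s} : Set (Set ℕ+)))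
        (fun a b h => singleton_injective h))
    obtain ⟨x, hx⟩ := hE ℕ+ 𝒜 (hc.trans (le_max_right _ _)) h𝒜
    exact ⟨x, mem_iInter₂.2 hx⟩
  refine ⟨_, WW Y, hE2, hE1, (hyperfilter ℕ).map P, EE.map b, ?_, ?_⟩
  · intro A hA
    have hA' : {n | P n ∈ A} ∈ hyperfilter ℕ := hA
    show {x : ℕ × ℕ | ∃ a ∈ A, a ∣ b x} ∈ EE
    refine mem_of_superset (EE_fst hA') fun x hx => ⟨P x.1, hx, ?_⟩
    exact dvd_pow_self _ (Nat.succ_ne_zero _)
  · refine ⟨((fun ns : ℕ × Finset Y => P ns.1) : ℕ × Finset Y → ℕ+), ?_, ?_⟩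
    · intro A hA
      have hA' : {n | P n ∈ A} ∈ hyperfilter ℕ := hA
      show {n : ℕ | {s : Finset Y | P n ∈ A} ∈ V0 Y} ∈ hyperfilter ℕ
      refine mem_of_superset hA' fun n hn => ?_
      exact mem_of_superset univ_mem fun s _ => hn
    · intro y
      induction y using Filter.Germ.inductionOn with
      | _ g =>
        intro hg hdvd
        obtain ⟨z, hz⟩ := hdvd
        induction z using Filter.Germ.inductionOn with
        | _ z =>
          -- the divisibility holds almost everywhere
          have h1 : ∀ᶠ ns in (WW Y : Filter (ℕ × Finset Y)), P ns.1 ∣ g ns := by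
            have h2 : g =ᶠ[(WW Y : Filter (ℕ × Finset Y))] fun ns => P ns.1 * z ns :=
              Filter.Germ.coe_eq.1 hz
            filter_upwards [h2] with ns hns
            exact ⟨z ns, hns⟩
          -- the range of `b`
          have hB : {v | ∃ x : ℕ × ℕ, x.2 < x.1 ∧ v = b x} ∈ EE.map b := by
            show {x | _} ∈ EE
            exact mem_of_superset EE_lt fun x hx => ⟨x, hx, rfl⟩
          have h3 : ∀ᶠ ns in (WW Y : Filter (ℕ × Finset Y)), ∃ x : ℕ × ℕ, x.2 < x.1 ∧ g ns = b x :=
            hg _ hB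
          have h4 : {n | {s | P n ∣ g (n, s) ∧ ∃ x : ℕ × ℕ, x.2 < x.1 ∧ g (n, s) = b x} ∈ V0 Y} ∈
              hyperfilter ℕ := mem_WW.1 (h1.and h3)
          -- for a fixed `n` the value is constant on a large set
          have h5 : ∀ n, {s | P n ∣ g (n, s) ∧ ∃ x : ℕ × ℕ, x.2 < x.1 ∧ g (n, s) = b x} ∈ V0 Y →
              ∃ j, {s | g (n, s) = b (n, j)} ∈ V0 Y := by
            intro n hn
            have h6 : {v | ∃ j < n, v = b (n, j)} ∈ (V0 Y).map fun s => g (n, s) := by
              show {s | ∃ j < n, g (n, s) = b (n, j)} ∈ V0 Y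
              refine mem_of_superset hn ?_
              rintro s ⟨hs1, ⟨⟨m, j⟩, hx, hs2⟩⟩
              rw [hs2] at hs1
              have : n = m := P_dvd_pow hs1
              subst this
              exact ⟨j, hx, hs2⟩
            have h7 : {v | ∃ j < n, v = b (n, j)}.Finite := by
              have : {v | ∃ j < n, v = b (n, j)} = (fun j => b (n, j)) '' Set.Iio n := by
                ext v
                constructor
                · rintro ⟨j, hj, rfl⟩; exact ⟨j, hj, rfl⟩
                · rintro ⟨j, hj, rfl⟩; exact ⟨j, hj, rfl⟩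
              rw [this]
              exact (Set.finite_Iio n).image _
            obtain ⟨v, ⟨j, hj, rfl⟩, hv⟩ := Ultrafilter.eq_pure_of_finite_mem h7 h6
            refine ⟨j, ?_⟩
            have : {b (n, j)} ∈ (V0 Y).map fun s => g (n, s) := by
              rw [hv]; exact mem_singleton _
            exact this
          -- choose the constants
          let c : ℕ → ℕ := fun n =>
            if h : ∃ j, {s | g (n, s) = b (n, j)} ∈ V0 Y then h.choose else 0
          have hc : ∀ n, {s | P n ∣ g (n, s) ∧ ∃ x : ℕ × ℕ, x.2 < x.1 ∧ g (n, s) = b x} ∈ V0 Y →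
              {s | g (n, s) = b (n, c n)} ∈ V0 Y := by
            intro n hn
            have hex := h5 n hn
            have : c n = hex.choose := dif_pos hex
            rw [this]
            exact hex.choose_spec
          have hA : {v | ∃ x : ℕ × ℕ, x.2 ≠ c x.1 ∧ v = b x} ∈ EE.map b := by
            show {x | _} ∈ EE
            exact mem_of_superset (EE_graph c) fun x hx => ⟨x, hx, rfl⟩
          have h8 : ∀ᶠ ns in (WW Y : Filter (ℕ × Finset Y)), ∃ x : ℕ × ℕ, x.2 ≠ c x.1 ∧ g ns = b x :=
            hg _ hA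
          have h9 : {n | {s | ∃ x : ℕ × ℕ, x.2 ≠ c x.1 ∧ g (n, s) = b x} ∈ V0 Y} ∈ hyperfilter ℕ :=
            mem_WW.1 h8
          obtain ⟨n, hn1, hn2⟩ := (hyperfilter ℕ).nonempty_of_mem (inter_mem h4 h9)
          have hn2' : {s | ∃ x : ℕ × ℕ, x.2 ≠ c x.1 ∧ g (n, s) = b x} ∈ V0 Y := hn2
          obtain ⟨s, hs1, ⟨⟨m, j⟩, hx, hs2⟩⟩ := (V0 Y).nonempty_of_mem (inter_mem (hc n hn1) hn2')
          have hs3 : b (n, c n) = b (m, j) := hs1.symm.trans hs2
          have hnm : n = m := P_dvd_pow (n := n) (m := m) (j := j + 1) (by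
            have : P n ∣ b (n, c n) := dvd_pow_self _ (Nat.succ_ne_zero _)
            rw [hs3] at this
            exact this)
          subst hnm
          have := P_pow_inj hs3
          exact hx (by show j = c n; omega)

end Pool.Agent.Results.MP_2734af_lc.NotAllDivide
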